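import Mathlib

/-!
# MXS does not imply epistemic EF1

For every number `n ≥ 3` of agents there are identical, strictly positive additive valuations of
`4 n` goods and an allocation which is MXS but not EEF1: `4 n - 3` goods of value `11` and three goods
of values `17`, `16` and `7`; agent `0` gets the three special goods, of total value `40`.
-/

set_option autoImplicit false

open Finset

namespace Pool.Agent.Results.MP_a41a76_co.NotEpistemicEF1

/-- The value of the set `S` of goods for the additive valuation with the values `v` of the goods. -/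
def val {m : ℕ} (v : Fin m → ℝ) (S : Finset (Fin m)) : ℝ := ∑ g ∈ S, v g

/-- The bundle of agent `i` in the allocation `A` (good `g` goes to agent `A g`). -/
def bundle {n m : ℕ} (A : Fin m → Fin n) (i : Fin n) : Finset (Fin m) :=
  univ.filter fun g => A g = i

/-- Agent `i`, with the values `v`, is EF1-satisfied by `A`. -/
def EF1For {n m : ℕ} (v : Fin m → ℝ) (A : Fin m → Fin n) (i : Fin n) : Prop :=
  ∀ j, j ≠ i → val v (bundle A j) ≤ val v (bundle A i) ∨
    ∃ g ∈ bundle A j, val v ((bundle A j).erase g) ≤ val v (bundle A i)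

/-- `A` is EEF1 for agent `i`: some allocation `B` with `B_i = A_i` EF1-satisfies agent `i`. -/
def EEF1For {n m : ℕ} (v : Fin m → ℝ) (A : Fin m → Fin n) (i : Fin n) : Prop :=
  ∃ B : Fin m → Fin n, bundle B i = bundle A i ∧ EF1For v B i

/-- Agent `i`, with the values `v`, is EFX-satisfied by `B`. -/
def EFXFor {n m : ℕ} (v : Fin m → ℝ) (B : Fin m → Fin n) (i : Fin n) : Prop :=
  ∀ j, j ≠ i → ∀ g ∈ bundle B j, 0 < v g → val v ((bundle B j).erase g) ≤ val v (bundle B i)

/-- `A` is MXS for agent `i`: some allocation `B` EFX-satisfies agent `i`, and `i` does not prefer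
`B_i` to `A_i`. -/
def MXSFor {n m : ℕ} (v : Fin m → ℝ) (A : Fin m → Fin n) (i : Fin n) : Prop :=
  ∃ B : Fin m → Fin n, EFXFor v B i ∧ val v (bundle B i) ≤ val v (bundle A i)

/-- `A` is MXS (for all agents) for the valuations `v`. -/
def MXS {n m : ℕ} (v : Fin n → Fin m → ℝ) (A : Fin m → Fin n) : Prop := ∀ i, MXSFor (v i) A i

/-- `A` is EEF1 (for all agents) for the valuations `v`. -/
def EEF1 {n m : ℕ} (v : Fin n → Fin m → ℝ) (A : Fin m → Fin n) : Prop := ∀ i, EEF1For (v i) A i

/-- The values of the goods (`n = k + 3` agents). -/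
def u (k : ℕ) (g : Fin (4 * (k + 3))) : ℝ :=
  if g.val < 4 * k + 9 then 11 else if g.val = 4 * k + 9 then 17
    else if g.val = 4 * k + 10 then 16 else 7

/-- The owner of good number `x` in the allocation that is not EEF1. -/
def allocN (k x : ℕ) : ℕ := if x < 4 * k + 9 then 1 + x % (k + 2) else 0

/-- The allocation that is not EEF1. -/
def alloc (k : ℕ) (g : Fin (4 * (k + 3))) : Fin (k + 3) :=
  ⟨allocN k g.val, by
    have := Nat.mod_lt g.val (show 0 < k + 2 by omega)
    unfold allocN
    split_ifs <;> omega⟩

/-- The owner of good number `x` in the allocation that EFX-satisfies agent `0`. -/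
def efxN (k x : ℕ) : ℕ :=
  if x < 3 then 0 else if x < 6 then 1 else if x < 9 then 2
    else if x < 4 * k + 9 then 3 + (x - 9) / 4
    else if x = 4 * k + 9 then 1 else if x = 4 * k + 10 then 2 else 0

/-- The allocation that EFX-satisfies agent `0`. -/
def efx (k : ℕ) (g : Fin (4 * (k + 3))) : Fin (k + 3) :=
  ⟨efxN k g.val, by
    unfold efxN
    split_ifs <;> omega⟩

lemma mem_alloc (k : ℕ) (j : Fin (k + 3)) (g : Fin (4 * (k + 3))) :
    g ∈ bundle (alloc k) j ↔ allocN k g.val = j.val := by
  simp only [bundle, mem_filter, mem_univ, true_and, alloc, Fin.ext_iff]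

lemma mem_efx (k : ℕ) (j : Fin (k + 3)) (g : Fin (4 * (k + 3))) :
    g ∈ bundle (efx k) j ↔ efxN k g.val = j.val := by
  simp only [bundle, mem_filter, mem_univ, true_and, efx, Fin.ext_iff]

lemma u_pos (k : ℕ) (g : Fin (4 * (k + 3))) : 0 < u k g := by
  unfold u; split_ifs <;> norm_num

lemma u_ge (k : ℕ) (g : Fin (4 * (k + 3))) (h : g.val < 4 * k + 11) : 11 ≤ u k g := by
  unfold u
  split_ifs
  · norm_num
  · norm_num
  · norm_num
  · omega

lemma u_eleven (k : ℕ) (g : Fin (4 * (k + 3))) (h : g.val < 4 * k + 9) : u k g = 11 := by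
  unfold u; rw [if_pos h]

lemma u_17 (k : ℕ) (h : 4 * k + 9 < 4 * (k + 3)) : u k ⟨4 * k + 9, h⟩ = 17 := by
  unfold u; simp

lemma u_16 (k : ℕ) (h : 4 * k + 10 < 4 * (k + 3)) : u k ⟨4 * k + 10, h⟩ = 16 := by
  unfold u; simp

lemma u_7 (k : ℕ) (h : 4 * k + 11 < 4 * (k + 3)) : u k ⟨4 * k + 11, h⟩ = 7 := by
  unfold u; simp

lemma val_erase {m : ℕ} (v : Fin m → ℝ) (S : Finset (Fin m)) (g : Fin m) (hg : g ∈ S) :
    val v (S.erase g) = val v S - v g := by
  unfold val
  rw [← add_sum_erase S v hg]; ring

/-- `val` of a bundle consisting of goods of value `11`. -/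
lemma val_eleven (k : ℕ) (S : Finset (Fin (4 * (k + 3)))) (h : ∀ g ∈ S, g.val < 4 * k + 9) :
    val (u k) S = 11 * S.card := by
  unfold val
  rw [sum_congr rfl (fun g hg => u_eleven k g (h g hg))]
  simp [mul_comm]

lemma bundle_zero (k : ℕ) : bundle (alloc k) 0 =
    {⟨4 * k + 9, by omega⟩, ⟨4 * k + 10, by omega⟩, ⟨4 * k + 11, by omega⟩} := by
  ext g
  rw [mem_alloc]
  simp only [mem_insert, mem_singleton, Fin.ext_iff, Fin.val_zero]
  have := g.isLt
  unfold allocN
  split_ifs <;> omega

lemma val_zero (k : ℕ) : val (u k) (bundle (alloc k) 0) = 40 := by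
  rw [bundle_zero]
  unfold val
  rw [sum_insert (by simp [Fin.ext_iff]), sum_insert (by simp [Fin.ext_iff]), sum_singleton,
    u_17, u_16, u_7]
  norm_num

lemma val_alloc (k : ℕ) (i : Fin (k + 3)) : 40 ≤ val (u k) (bundle (alloc k) i) := by
  by_cases hi : i = 0
  · rw [hi, val_zero]
  · have hi0 : i.val ≠ 0 := fun h => hi (Fin.ext h)
    have hlt := i.isLt
    -- four goods of value 11 in the bundle of `i`
    have hb : ∀ t : Fin 4, t.val * (k + 2) ≤ 3 * (k + 2) := fun t =>
      Nat.mul_le_mul_right _ (by have := t.isLt; omega)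
    let f : Fin 4 → Fin (4 * (k + 3)) := fun t =>
      ⟨(i.val - 1) + t.val * (k + 2), by have := hb t; omega⟩
    have hf : Function.Injective f := by
      intro s t h
      have h1 : (i.val - 1) + s.val * (k + 2) = (i.val - 1) + t.val * (k + 2) := congrArg Fin.val h
      have h2 : s.val * (k + 2) = t.val * (k + 2) := by omega
      exact Fin.ext (Nat.eq_of_mul_eq_mul_right (by omega) h2)
    have hmem : ∀ t, f t ∈ bundle (alloc k) i := by
      intro t
      rw [mem_alloc]
      have h4 := hb t
      have hlt9 : (i.val - 1) + t.val * (k + 2) < 4 * k + 9 := by omega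
      show allocN k ((i.val - 1) + t.val * (k + 2)) = i.val
      unfold allocN
      rw [if_pos hlt9, Nat.add_mul_mod_self_right, Nat.mod_eq_of_lt (by omega)]
      omega
    have h9 : ∀ g ∈ bundle (alloc k) i, g.val < 4 * k + 9 := by
      intro g hg
      rw [mem_alloc] at hg
      unfold allocN at hg
      split_ifs at hg <;> omega
    rw [val_eleven k _ h9]
    have hcard : 4 ≤ (bundle (alloc k) i).card := by
      have h5 : (univ.image f).card ≤ (bundle (alloc k) i).card := by
        apply card_le_card
        intro g hg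
        obtain ⟨t, -, rfl⟩ := mem_image.1 hg
        exact hmem t
      rwa [card_image_of_injective _ hf, card_univ, Fintype.card_fin] at h5
    have : (4 : ℝ) ≤ (bundle (alloc k) i).card := by exact_mod_cast hcard
    linarith

/-- The bundle of agent `0` in `efx` is worth `40`. -/
lemma efx_zero (k : ℕ) : val (u k) (bundle (efx k) 0) = 40 := by
  have hb : bundle (efx k) 0 =
      {⟨0, by omega⟩, ⟨1, by omega⟩, ⟨2, by omega⟩, ⟨4 * k + 11, by omega⟩} := by
    ext g
    rw [mem_efx]
    simp only [mem_insert, mem_singleton, Fin.ext_iff, Fin.val_zero]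
    have := g.isLt
    unfold efxN
    split_ifs <;> constructor <;> intro h <;> first | omega | exact h.elim
  rw [hb]
  unfold val
  rw [sum_insert (by simp [Fin.ext_iff]), sum_insert (by simp [Fin.ext_iff]),
    sum_insert (by simp [Fin.ext_iff]), sum_singleton, u_7, u_eleven _ _ (by simp),
    u_eleven _ _ (by simp), u_eleven _ _ (by simp)]
  norm_num

lemma efx_val (k : ℕ) (j : Fin (k + 3)) (hj : j ≠ 0) (g : Fin (4 * (k + 3)))
    (hg : g ∈ bundle (efx k) j) : val (u k) ((bundle (efx k) j).erase g) ≤ 40 := by
  rw [val_erase _ _ _ hg]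
  have hj0 : j.val ≠ 0 := fun h => hj (Fin.ext h)
  -- no bundle except that of agent `0` contains the good of value `7`
  have hg11 : 11 ≤ u k g := by
    apply u_ge
    rw [mem_efx] at hg
    have := g.isLt
    unfold efxN at hg
    split_ifs at hg <;> omega
  have hle : val (u k) (bundle (efx k) j) ≤ 51 := by
    by_cases h1 : j.val = 1
    · have hb : bundle (efx k) j =
          {⟨3, by omega⟩, ⟨4, by omega⟩, ⟨5, by omega⟩, ⟨4 * k + 9, by omega⟩} := by
        ext g
        rw [mem_efx, h1]
        simp only [mem_insert, mem_singleton, Fin.ext_iff]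
        have := g.isLt
        unfold efxN
        split_ifs <;> constructor <;> intro h <;> first | omega | exact h.elim
      rw [hb]
      unfold val
      rw [sum_insert (by simp only [mem_insert, mem_singleton, Fin.ext_iff]; omega),
        sum_insert (by simp only [mem_insert, mem_singleton, Fin.ext_iff]; omega),
        sum_insert (by simp only [mem_singleton, Fin.ext_iff]; omega), sum_singleton, u_17,
        u_eleven _ _ (show 3 < 4 * k + 9 by omega), u_eleven _ _ (show 4 < 4 * k + 9 by omega),
        u_eleven _ _ (show 5 < 4 * k + 9 by omega)]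
      norm_num
    · by_cases h2 : j.val = 2
      · have hb : bundle (efx k) j =
            {⟨6, by omega⟩, ⟨7, by omega⟩, ⟨8, by omega⟩, ⟨4 * k + 10, by omega⟩} := by
          ext g
          rw [mem_efx, h2]
          simp only [mem_insert, mem_singleton, Fin.ext_iff]
          have := g.isLt
          unfold efxN
          split_ifs <;> constructor <;> intro h <;> first | omega | exact h.elim
        rw [hb]
        unfold val
        rw [sum_insert (by simp only [mem_insert, mem_singleton, Fin.ext_iff]; omega),
          sum_insert (by simp only [mem_insert, mem_singleton, Fin.ext_iff]; omega),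
          sum_insert (by simp only [mem_singleton, Fin.ext_iff]; omega), sum_singleton, u_16,
          u_eleven _ _ (show 6 < 4 * k + 9 by omega), u_eleven _ _ (show 7 < 4 * k + 9 by omega),
          u_eleven _ _ (show 8 < 4 * k + 9 by omega)]
        norm_num
      · -- four goods of value 11
        have hmem : ∀ g ∈ bundle (efx k) j, 9 + 4 * (j.val - 3) ≤ g.val ∧
            g.val < 9 + 4 * (j.val - 3) + 4 ∧ g.val < 4 * k + 9 := by
          intro g hg
          rw [mem_efx] at hg
          have hlt := g.isLt
          unfold efxN at hg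
          split_ifs at hg <;> omega
        rw [val_eleven k _ fun g hg => (hmem g hg).2.2]
        have hcard : (bundle (efx k) j).card ≤ 4 := by
          have h5 : ((bundle (efx k) j).image Fin.val).card ≤
              (Ico (9 + 4 * (j.val - 3)) (9 + 4 * (j.val - 3) + 4)).card := by
            apply card_le_card
            intro x hx
            obtain ⟨g, hg, rfl⟩ := mem_image.1 hx
            rw [mem_Ico]
            exact ⟨(hmem g hg).1, (hmem g hg).2.1⟩
          rw [card_image_of_injective _ Fin.val_injective, Nat.card_Ico] at h5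
          omega
        have : ((bundle (efx k) j).card : ℝ) ≤ 4 := by exact_mod_cast hcard
        linarith
  linarith

lemma bundle_swap {n m : ℕ} (B : Fin m → Fin n) (σ : Equiv.Perm (Fin n)) (j : Fin n) :
    bundle (fun g => σ (B g)) j = bundle B (σ.symm j) := by
  ext g
  simp only [bundle, mem_filter, mem_univ, true_and]
  rw [Equiv.eq_symm_apply]

/-- The allocation is MXS. -/
lemma alloc_mxs (k : ℕ) (i : Fin (k + 3)) : MXSFor (u k) (alloc k) i := by
  refine ⟨fun g => Equiv.swap 0 i (efx k g), ?_, ?_⟩
  · intro j hj g hg _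
    rw [bundle_swap] at hg ⊢
    rw [bundle_swap, Equiv.symm_swap, Equiv.swap_apply_right, efx_zero]
    rw [Equiv.symm_swap] at hg
    apply efx_val
    · intro h
      apply hj
      have := congrArg (Equiv.swap 0 i) h
      rwa [Equiv.swap_apply_self, Equiv.swap_apply_left] at this
    · exact hg
  · rw [bundle_swap, Equiv.symm_swap, Equiv.swap_apply_right, efx_zero]
    exact val_alloc k i

/-- The allocation is not EEF1 for agent `0`. -/
lemma alloc_not_eef1 (k : ℕ) : ¬ EEF1For (u k) (alloc k) 0 := by
  rintro ⟨B, hB, h⟩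
  have h9 : ∀ j, j ≠ 0 → ∀ g ∈ bundle B j, g.val < 4 * k + 9 := by
    intro j hj g hg
    by_contra hcon
    have h1 : g ∈ bundle (alloc k) 0 := by
      rw [mem_alloc, Fin.val_zero]
      unfold allocN
      rw [if_neg (by omega)]
    rw [← hB] at h1
    simp only [bundle, mem_filter, mem_univ, true_and] at h1 hg
    exact hj (hg.symm.trans h1)
  have hcard : ∀ j, j ≠ 0 → (bundle B j).card ≤ 4 := by
    intro j hj
    have hv : val (u k) (bundle B 0) = 40 := by rw [hB, val_zero]
    rcases h j hj with h1 | ⟨g, hg, h1⟩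
    · rw [hv, val_eleven k _ (h9 j hj)] at h1
      by_contra hcon
      have : (5 : ℝ) ≤ (bundle B j).card := by exact_mod_cast (not_le.1 hcon)
      linarith
    · rw [hv, val_eleven k _ fun g' hg' => h9 j hj g' (mem_of_mem_erase hg')] at h1
      rw [card_erase_of_mem hg] at h1
      by_contra hcon
      have h2 : 4 ≤ (bundle B j).card - 1 := by omega
      have : (4 : ℝ) ≤ (((bundle B j).card - 1 : ℕ) : ℝ) := by exact_mod_cast h2
      linarith
  -- counting the goods
  have htot : (univ : Finset (Fin (4 * (k + 3)))).card = ∑ j, (bundle B j).card := by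
    apply card_eq_sum_card_fiberwise
    intro g _
    simp
  rw [card_univ, Fintype.card_fin, ← add_sum_erase univ _ (mem_univ (0 : Fin (k + 3)))] at htot
  have h0 : (bundle B 0).card = 3 := by
    rw [hB, bundle_zero, card_insert_of_notMem (by simp [Fin.ext_iff]),
      card_insert_of_notMem (by simp [Fin.ext_iff]), card_singleton]
  have hsum : ∑ j ∈ univ.erase (0 : Fin (k + 3)), (bundle B j).card ≤ (k + 2) * 4 := by
    have h1 := sum_le_card_nsmul (univ.erase (0 : Fin (k + 3))) (fun j => (bundle B j).card) 4
      (fun j hj => hcard j (ne_of_mem_erase hj))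
    rw [card_erase_of_mem (mem_univ _), card_univ, Fintype.card_fin] at h1
    simpa using h1
  omega

/-- **MXS does not imply EEF1**, for every number `n ≥ 3` of agents, even if the valuations are
identical and strictly positive. -/
theorem result : ∀ n : ℕ, 3 ≤ n → ∃ (m : ℕ) (v : Fin n → Fin m → ℝ) (A : Fin m → Fin n),
    (∀ i g, 0 < v i g) ∧ (∀ i j, v i = v j) ∧ MXS v A ∧ ¬ EEF1 v A := by
  intro n hn
  obtain ⟨k, rfl⟩ := Nat.exists_eq_add_of_le' hn
  exact ⟨4 * (k + 3), fun _ => u k, alloc k, fun _ g => u_pos k g, fun _ _ => rfl,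
    fun i => alloc_mxs k i, fun h => alloc_not_eef1 k (h 0)⟩

end Pool.Agent.Results.MP_a41a76_co.NotEpistemicEF1
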